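import Pool.Agent.KDT.StmtsK
import Pool.Agent.Helper25_SZT.LFN

/-!
# KDT row PLF: local bounds for the adapted coordinates at the finite places
-/

set_option autoImplicit false

namespace Pool.Agent.KDT.H25

open Polynomial NumberField H58Q Pool.Agent.SZT
open Pool.Agent.MNT (QU)
open Pool.Agent.SZT.H25 (exists_theta25 theta_inj25 root_le25 discr_map_five25)

theorem kum_map25 {K E : Type} [Field K] [Field E] (φ : K →+* E) (f A B : K[X]) (l : Fin 4) :
    φ (kum f A B l) = kum (f.map φ) (A.map φ) (B.map φ) l := by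
  fin_cases l <;> simp [kum, coeff_map]

/-- a finite place is not trivial -/
theorem fp_nontriv25 {K : Type} [Field K] [NumberField K] (v : FinitePlace K) :
    ∃ x : K, x ≠ 0 ∧ v.val x ≠ 1 := by
  obtain ⟨x, hx, hx0⟩ := Submodule.exists_mem_ne_zero_of_ne_bot v.maximalIdeal.ne_bot
  refine ⟨algebraMap (𝓞 K) K x, ?_, ?_⟩
  · intro h
    exact hx0 ((map_eq_zero_iff _ (FaithfulSMul.algebraMap_injective (𝓞 K) K)).1 h)
  · have h1 := (FinitePlace.norm_lt_one_iff_mem K v.maximalIdeal x).2 hx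
    have h2 : v (algebraMap (𝓞 K) K x) < 1 := by
      rw [← FinitePlace.norm_embedding_eq]; exact h1
    exact ne_of_lt h2

theorem fp_nonarch25 {K : Type} [Field K] [NumberField K] (v : FinitePlace K) :
    IsNonarchimedean v.val := fun x y => FinitePlace.add_le v x y

theorem plf (h1 : LfaStatement) (h2 : GmpStatement) (h3 : SZT.AOutStatement)
    (h4 : SZT.DsrStatement) (h5 : SZT.B.CplStmt) : PlfStatement := by
  obtain ⟨c2, ci, hc2, -, haot, -⟩ := h3
  refine ⟨c2, hc2, ?_⟩
  intro K _ _ v f hf hf5 hsq hint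
  obtain ⟨Ω, L, _, _, _, _, _, i, j, hij⟩ := h5 K v.val (fp_nonarch25 v) (fp_nontriv25 v)
  let w : AbsoluteValue Ω ℝ :=
    { toFun := fun x => ‖j x‖
      map_mul' := fun x y => by rw [map_mul, norm_mul]
      nonneg' := fun x => norm_nonneg _
      eq_zero' := fun x => by rw [norm_eq_zero, map_eq_zero]
      add_le' := fun x y => by rw [map_add]; exact norm_add_le _ _ }
  have hw : ∀ x, w x = ‖j x‖ := fun _ => rfl
  have hwv : ∀ x, w (i x) = v x := fun x => by rw [hw, hij]; rfl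
  have hwna : IsNonarchimedean w := by
    intro x y
    rw [hw, hw, hw, map_add]
    exact IsUltrametricDist.norm_add_le_max _ _
  have hQU : QU w 0 := by
    refine ⟨le_rfl, fun a b => ?_⟩
    rw [Real.exp_zero, one_mul]
    exact hwna a b
  have hchar : CharZero Ω := charZero_of_injective_ringHom i.injective
  have h20 : (2 : Ω) ≠ 0 := two_ne_zero
  have hfm : (f.map i).Monic := hf.map i
  have hf5' : (f.map i).natDegree = 5 := by rw [hf.natDegree_map, hf5]
  obtain ⟨θ, hθ⟩ := exists_theta25 (IsAlgClosed.splits (f.map i)) hfm hf5'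
  have hsep : (f.map i).Separable := (PerfectField.separable_iff_squarefree.2 hsq).map
  have hinj : Function.Injective θ := theta_inj25 (hθ ▸ hsep)
  obtain ⟨⟨k, l⟩, hkl⟩ := Finite.exists_max (fun p : Fin 5 × Fin 5 => w (θ p.1 - θ p.2))
  have hrho : rho w θ = w (θ k - θ l) :=
    le_antisymm (ciSup_le hkl)
      (le_ciSup (f := fun p : Fin 5 × Fin 5 => w (θ p.1 - θ p.2)) ⟨_, by
        rintro _ ⟨p, rfl⟩; exact hkl p⟩ (k, l))
  have hρ0 : 0 < w (θ k - θ l) := by
    refine lt_of_lt_of_le ?_ (hkl (0, 1))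
    exact w.pos (sub_ne_zero.2 (hinj.ne (by decide)))
  have hne : k ≠ l := by
    rintro rfl
    rw [sub_self, map_zero] at hρ0
    exact lt_irrefl _ hρ0
  have hroot : ∀ m, w (θ m) ≤ 1 := by
    intro m
    refine root_le25 w hwna hfm hf5' (fun n => ?_) (x := θ m) ?_
    · rw [coeff_map, hwv]; exact hint n
    · rw [hθ, eval_prod]
      exact Finset.prod_eq_zero (Finset.mem_univ m) (by simp)
  have hρ1 : w (θ k - θ l) ≤ 1 := by
    rw [sub_eq_add_neg]
    refine (hwna _ _).trans (max_le (hroot _) ?_)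
    rw [w.map_neg]
    exact hroot _
  have hd : w (dsc θ) = v (discr f) := by
    rw [← hwv (discr f), ← discr_map_five25 i hf hf5, hθ]
    rcases h4 Ω θ with h | h
    · rw [h]
    · rw [h, w.map_neg]
  have hv2 : w 2 = v 2 := by
    have h6 : i 2 = 2 := map_ofNat i 2
    rw [← hwv 2, h6]
  set ρ : ℝ := w (θ k - θ l) with hρdef
  set D₀ : ℝ := (1 / 2) * Real.log (v (discr f)) - 7 * Real.log ρ + c2 * Real.log (v 2) with hD₀
  have hlow : ∀ (A B U W : Polynomial Ω) (M : ℕ), Good (∏ m, (X - C (θ m))) A B →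
      Gen (∏ m, (X - C (θ m))) A B U W M → D₀ ≤ Lv w (∏ m, (X - C (θ m))) A U M := by
    intro A B U W M hG hGen
    have h := haot Ω w θ A U W M hwna h20 hinj hG.monic hG.two (IsAlgClosed.splits A)
      (IsAlgClosed.splits U) hGen.cop hGen.pos hGen.even hGen.pell
    rw [hd, hrho, hv2] at h
    exact h
  refine ⟨Ω, inferInstance, w, i, adc (f.map i) (θ k) (θ l), hwv, hwna, ?_⟩
  intro A B U W M hVG hGen κ e he
  obtain ⟨-, g2, g3, g4, g5⟩ := h2 K Ω i f A B U W M hf
  have hG' := g2 hVG.1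
  have hGen' := g3 hGen
  have hLv := g4 v.val w hwv
  have htau := g5 hVG
  have hvec : (fun l => i (kum f A B l)) = kum (f.map i) (A.map i) (B.map i) :=
    funext fun l => kum_map25 i f A B l
  rw [hvec]
  have hrt : ∀ m, (f.map i).IsRoot (θ m) := by
    intro m
    rw [IsRoot.def, hθ, eval_prod]
    exact Finset.prod_eq_zero (Finset.mem_univ m) (by simp)
  have htau' : ∀ m n, m ≠ n →
      tau (f.map i) (θ m) (θ n) (kum (f.map i) (A.map i) (B.map i)) ≠ 0 :=
    fun m n hmn => htau _ _ (hrt m) (hrt n) (hinj.ne hmn)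
  have hmax : ∀ m n, w (θ m - θ n) ≤ ρ := fun m n => hkl (m, n)
  rw [hθ] at hG' hGen' hLv htau' ⊢
  have key := h1 Ω w 0 D₀ ρ θ k l hQU h20 hinj hne hmax rfl hlow (A.map i) (B.map i) (U.map i)
    (W.map i) M hG' htau' hGen' κ e he
  refine key.trans ?_
  rw [hLv]
  have hLv' : Lv v.val f A U M = Lv v f A U M := rfl
  rw [hLv', mul_zero, Real.exp_zero, one_mul]
  have hlog : Real.log ρ ≤ 0 := Real.log_nonpos hρ0.le hρ1
  have hpow : ρ ^ wt e ≤ 1 := pow_le_one₀ hρ0.le hρ1
  calc Real.exp (κ * (Lv v f A U M - D₀)) * ρ ^ wt e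
      ≤ Real.exp (κ * (Lv v f A U M - D₀)) * 1 :=
        mul_le_mul_of_nonneg_left hpow (Real.exp_nonneg _)
    _ = Real.exp (κ * (Lv v f A U M - D₀)) := mul_one _
    _ ≤ _ := by
        refine Real.exp_le_exp.2 (mul_le_mul_of_nonneg_left ?_ (Nat.cast_nonneg κ))
        rw [hD₀]
        linarith

end Pool.Agent.KDT.H25
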